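import Pool.Agent.H27.HB.TA
import Pool.Agent.H27.HB.TC
import Pool.Agent.H27.HB.TD

/-!
# The gradient of mollifications (helper40, MP_8352e3_an): module MO2
-/

set_option autoImplicit false

namespace Pool.Agent.H40.HB.M2
open MeasureTheory Set Filter Topology Pool.Agent.H80.HS Pool.Agent.H93.HQ Pool.Agent.H27.HB
open scoped ContDiff ENNReal

/-- left multiplications preserve the measure -/
theorem mp_mul (hTR : U_TR) {n : ℕ} (z : H n) :
    MeasurePreserving (mul z : H n → H n) volume volume := by
  refine ⟨(continuous_mul z).measurable, Measure.ext fun s hs => ?_⟩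
  rw [Measure.map_apply (continuous_mul z).measurable hs, ← lintegral_indicator_one hs,
    ← (hTR n (s.indicator 1) z (measurable_one.indicator hs)).1,
    ← lintegral_indicator_one ((continuous_mul z).measurable hs)]
  rfl

/-- `x ↦ z x⁻¹` -/
noncomputable def ez (hGRP : T_GRP) {n : ℕ} (z : H n) : H n ≃ₜ H n where
  toFun x := mul z (-x)
  invFun y := mul (-y) z
  left_inv x := by
    have h1 : -mul z (-x) = mul x (-z) := by
      unfold mul
      refine Prod.ext ?_ (Prod.ext ?_ ?_)
      · simp
      · simp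
      · simp only [Prod.fst_neg, Prod.snd_neg, inner_neg_right, neg_add_rev]
        rw [real_inner_comm z.1, real_inner_comm z.2.1]
        ring
    simp only
    rw [h1, (hGRP n x (-z) z 0 0).1, (hGRP n z 0 0 0 0).2.2.1, mul_zero']
  right_inv y := by
    have h1 : -mul (-y) z = mul (-z) y := by
      unfold mul
      refine Prod.ext ?_ (Prod.ext ?_ ?_)
      · simp [add_comm]
      · simp [add_comm]
      · simp only [Prod.fst_neg, Prod.snd_neg, inner_neg_left, neg_add_rev, Prod.snd_neg]
        rw [real_inner_comm z.1, real_inner_comm z.2.1]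
        ring
    simp only
    rw [h1, ← (hGRP n z (-z) y 0 0).1, (hGRP n z 0 0 0 0).2.1, zero_mul']
  continuous_toFun := (continuous_mul z).comp continuous_neg
  continuous_invFun := by
    unfold mul
    fun_prop

theorem mp_neg (n : ℕ) : MeasurePreserving (fun x : H n => -x) volume volume := by
  have h1 : MeasurePreserving (fun x : V n => -x) volume volume :=
    (LinearIsometryEquiv.neg ℝ : V n ≃ₗᵢ[ℝ] V n).measurePreserving
  have h2 : MeasurePreserving (fun x : ℝ => -x) volume volume :=
    Measure.measurePreserving_neg volume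
  exact h1.prod (h1.prod h2)

theorem mp_ez (hTR : U_TR) (hGRP : T_GRP) {n : ℕ} (z : H n) :
    MeasurePreserving (ez hGRP z : H n → H n) volume volume :=
  (mp_mul hTR z).comp (mp_neg n)

/-- the mollification as an integral over the argument -/
theorem mol_eq (hTR : U_TR) (hGRP : T_GRP) {n : ℕ} {E : Type} [NormedAddCommGroup E]
    [NormedSpace ℝ E] (η : H n → ℝ) (f : H n → E) (z : H n) :
    mol η f z = ∫ x, η (mul z (-x)) • f x := by
  unfold mol
  rw [← (mp_ez hTR hGRP z).integral_comp (ez hGRP z).measurableEmbedding]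
  refine integral_congr_ae (ae_of_all _ fun x => ?_)
  have h1 : mul (-(ez hGRP z x)) z = x := (ez hGRP z).left_inv x
  simp only
  rw [h1]
  rfl

/-- the direction -/
noncomputable def Dir {n : ℕ} (z : H n) (v w : V n) (x : H n) : H n :=
  (v, w, 2 * (inner ℝ z.2.1 v - inner ℝ z.1 w) + 2 * (inner ℝ w (-x).1 - inner ℝ v (-x).2.1))

/-- the line through `z` -/
theorem line_eq {n : ℕ} (z : H n) (v w : V n) (s : ℝ) :
    mul z (s • v, s • w, 0) = z + s • ((v, w, 2 * (inner ℝ z.2.1 v - inner ℝ z.1 w)) : H n) := by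
  unfold mul
  refine Prod.ext rfl (Prod.ext rfl ?_)
  simp only [Prod.snd_add, Prod.smul_mk, inner_smul_right, smul_eq_mul]
  ring

theorem shift_eq {n : ℕ} (z x : H n) (v w : V n) (s : ℝ) :
    mul (mul z (s • v, s • w, 0)) (-x) = mul z (-x) + s • Dir z v w x := by
  unfold mul Dir
  refine Prod.ext ?_ (Prod.ext ?_ ?_)
  · simp only [Prod.fst_add, Prod.smul_mk]
    abel
  · simp only [Prod.snd_add, Prod.fst_add, Prod.smul_mk]
    abel
  · simp only [Prod.snd_add, Prod.smul_mk, inner_smul_right, smul_eq_mul, inner_add_left,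
      real_inner_smul_left]
    ring

theorem shift_inv {n : ℕ} (z x : H n) (v w : V n) (s : ℝ) :
    mul z (-(mul x (s • v, s • w, 0))) = mul z (-x) + s • (-Dir z v w x) := by
  unfold mul Dir
  refine Prod.ext ?_ (Prod.ext ?_ ?_)
  · simp only [Prod.fst_add, Prod.smul_mk, Prod.fst_neg, neg_add_rev, Prod.neg_mk, smul_neg]
    abel
  · simp only [Prod.snd_add, Prod.fst_add, Prod.smul_mk, Prod.fst_neg, Prod.snd_neg, neg_add_rev,
      Prod.neg_mk, smul_neg]
    abel
  · simp only [Prod.snd_add, Prod.smul_mk, inner_smul_right, smul_eq_mul, inner_add_right,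
      Prod.fst_neg, Prod.snd_neg, neg_add_rev, Prod.neg_mk, inner_neg_right]
    rw [real_inner_comm x.1 w, real_inner_comm x.2.1 v]
    ring

theorem cd_mulneg {n : ℕ} (z : H n) (m : WithTop ℕ∞) : ContDiff ℝ m fun x : H n => mul z (-x) := by
  have h : (fun x : H n => mul z (-x)) = fun x => (z.1 - x.1, z.2.1 - x.2.1,
      z.2.2 - x.2.2 - 2 * (innerSL ℝ z.2.1 x.1 - innerSL ℝ z.1 x.2.1)) := by
    funext x
    unfold mul
    refine Prod.ext ?_ (Prod.ext ?_ ?_)
    · simp only [Prod.fst_neg]
      abel
    · simp only [Prod.snd_neg, Prod.fst_neg]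
      abel
    · simp only [Prod.snd_neg, Prod.fst_neg, inner_neg_right, innerSL_apply_apply]
      ring
  rw [h]
  fun_prop

/-- LEMMA B: derivatives of `x ↦ η (z x⁻¹)` -/
theorem deriv_psi {n : ℕ} {η : H n → ℝ} (hη : ContDiff ℝ 1 η) (z x : H n) (v w : V n) :
    fderiv ℝ (fun x => η (mul z (-x))) x (v, w, 2 * (inner ℝ x.2.1 v - inner ℝ x.1 w)) =
      -fderiv ℝ η (mul z (-x)) (Dir z v w x) := by
  have hψ : ContDiff ℝ 1 fun x => η (mul z (-x)) := hη.comp (cd_mulneg z 1)
  have h1 : HasDerivAt (fun s : ℝ => η (mul z (-(mul x (s • v, s • w, 0)))))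
      (fderiv ℝ (fun x => η (mul z (-x))) x (v, w, 2 * (inner ℝ x.2.1 v - inner ℝ x.1 w))) 0 := by
    have h2 : HasDerivAt (fun s : ℝ => mul x (s • v, s • w, 0))
        ((v, w, 2 * (inner ℝ x.2.1 v - inner ℝ x.1 w)) : H n) 0 := by
      simp_rw [line_eq]
      have h3 := ((hasDerivAt_id (0 : ℝ)).smul_const
        ((v, w, 2 * (inner ℝ x.2.1 v - inner ℝ x.1 w)) : H n)).const_add x
      simpa using h3
    have h4 : mul x ((0 : ℝ) • v, (0 : ℝ) • w, 0) = x := by
      rw [line_eq, zero_smul, add_zero]
    have h5 : HasFDerivAt (fun x => η (mul z (-x))) (fderiv ℝ (fun x => η (mul z (-x))) x)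
        (mul x ((0 : ℝ) • v, (0 : ℝ) • w, 0)) := by
      rw [h4]
      exact (hψ.differentiable one_ne_zero x).hasFDerivAt
    have h6 := h5.comp_hasDerivAt (0 : ℝ) h2
    exact h6
  have h6 : HasDerivAt (fun s : ℝ => η (mul z (-(mul x (s • v, s • w, 0)))))
      (fderiv ℝ η (mul z (-x)) (-Dir z v w x)) 0 := by
    simp_rw [shift_inv]
    have h2 : HasDerivAt (fun s : ℝ => mul z (-x) + s • (-Dir z v w x)) (-Dir z v w x) 0 := by
      have h3 := ((hasDerivAt_id (0 : ℝ)).smul_const (-Dir z v w x)).const_add (mul z (-x))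
      simpa using h3
    have h5 : HasFDerivAt η (fderiv ℝ η (mul z (-x)))
        (mul z (-x) + (0 : ℝ) • (-Dir z v w x)) := by
      rw [zero_smul, add_zero]
      exact (hη.differentiable one_ne_zero _).hasFDerivAt
    exact h5.comp_hasDerivAt (0 : ℝ) h2
  rw [h1.unique h6, map_neg]

/-- LEMMA A: derivatives of mollifications -/
theorem deriv_mol (hTR : U_TR) (hGRP : T_GRP) (hMO1 : T_MO1) {n : ℕ} {η u : H n → ℝ}
    (hη : Tst η) (hu : LocallyIntegrable u volume) (z : H n) (v w : V n) :
    fderiv ℝ (mol η u) z (v, w, 2 * (inner ℝ z.2.1 v - inner ℝ z.1 w)) =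
      ∫ x, fderiv ℝ η (mul z (-x)) (Dir z v w x) * u x := by
  have hη1 : ContDiff ℝ 1 η := hη.1.of_le (by norm_cast)
  have hηc : Continuous η := hη.1.continuous
  have hm : ContDiff ℝ ∞ (mol η u) := hMO1 n η u hη hu
  have hDir : Continuous (Dir z v w) := by
    unfold Dir
    fun_prop
  have hmz : Continuous fun x : H n => mul z (-x) := (continuous_mul z).comp continuous_neg
  let G : ℝ → H n → ℝ := fun s x => fderiv ℝ η (mul z (-x) + s • Dir z v w x) (Dir z v w x)
  have hG : Continuous fun q : ℝ × H n => G q.1 q.2 := by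
    refine ((hη1.continuous_fderiv one_ne_zero).comp ?_).clm_apply (hDir.comp continuous_snd)
    exact (hmz.comp continuous_snd).add (continuous_fst.smul (hDir.comp continuous_snd))
  -- the compact set
  let K : Set (H n) := (fun q : ℝ × H n => mul (-q.2) (mul z (q.1 • v, q.1 • w, 0))) ''
    (Icc (-1 : ℝ) 1 ×ˢ tsupport η)
  have hK : IsCompact K := by
    refine (isCompact_Icc.prod hη.2).image ?_
    simp_rw [line_eq]
    exact continuous_mul'.comp (continuous_snd.neg.prodMk (by fun_prop))
  have hKout : ∀ s ∈ Icc (-1 : ℝ) 1, ∀ x, x ∉ K → G s x = 0 := by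
    intro s hs x hx
    have h1 : mul z (-x) + s • Dir z v w x ∉ tsupport η := by
      intro h2
      apply hx
      refine ⟨(s, mul z (-x) + s • Dir z v w x), ⟨hs, h2⟩, ?_⟩
      simp only
      rw [← shift_eq]
      exact (ez hGRP (mul z (s • v, s • w, 0))).left_inv x
    simp only [G]
    rw [fderiv_of_notMem_tsupport ℝ h1]
    rfl
  obtain ⟨C, hC⟩ := (isCompact_Icc.prod hK).exists_bound_of_continuousOn
    (s := Icc (-1 : ℝ) 1 ×ˢ K) hG.continuousOn
  have hum : AEStronglyMeasurable u volume := hu.aestronglyMeasurable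
  have hbi : Integrable (K.indicator fun x => C * ‖u x‖) volume := by
    rw [integrable_indicator_iff hK.measurableSet]
    exact ((hu.integrableOn_isCompact hK).norm).const_mul C
  have hshift : ∀ s : ℝ, Continuous fun x : H n => η (mul z (-x) + s • Dir z v w x) := fun s =>
    hηc.comp (hmz.add (hDir.const_smul s))
  have key := hasDerivAt_integral_of_dominated_loc_of_deriv_le (μ := (volume : Measure (H n)))
    (F := fun (s : ℝ) (x : H n) => η (mul z (-x) + s • Dir z v w x) * u x)
    (F' := fun (s : ℝ) (x : H n) => G s x * u x) (x₀ := (0 : ℝ)) (s := Icc (-1 : ℝ) 1)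
    (bound := K.indicator fun x => C * ‖u x‖) (Icc_mem_nhds (by norm_num) (by norm_num))
    (Eventually.of_forall fun s => (hshift s).aestronglyMeasurable.mul hum)
    (by
      have h1 : HasCompactSupport fun x : H n => η (mul z (-x)) :=
        hη.2.comp_homeomorph (ez hGRP z)
      have h2 := hu.integrable_smul_left_of_hasCompactSupport (hηc.comp hmz) h1
      refine h2.congr (ae_of_all _ fun x => ?_)
      simp only [zero_smul, add_zero, smul_eq_mul, Function.comp])
    (((hG.comp (continuous_const.prodMk continuous_id)).aestronglyMeasurable).mul hum)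
    (ae_of_all _ fun x s hs => by
      by_cases hx : x ∈ K
      · rw [indicator_of_mem hx, norm_mul]
        exact mul_le_mul_of_nonneg_right (hC (s, x) ⟨hs, hx⟩) (norm_nonneg _)
      · rw [indicator_of_notMem hx, hKout s hs x hx, zero_mul, norm_zero])
    hbi
    (ae_of_all _ fun x s hs => by
      refine HasDerivAt.mul_const ?_ (u x)
      have h2 : HasDerivAt (fun s : ℝ => mul z (-x) + s • Dir z v w x) (Dir z v w x) s := by
        have h3 := ((hasDerivAt_id s).smul_const (Dir z v w x)).const_add (mul z (-x))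
        simpa using h3
      exact ((hη1.differentiable one_ne_zero _).hasFDerivAt).comp_hasDerivAt s h2)
  have h1 : HasDerivAt (fun s : ℝ => mol η u (mul z (s • v, s • w, 0)))
      (∫ x, G 0 x * u x) 0 := by
    have e1 : (fun s : ℝ => mol η u (mul z (s • v, s • w, 0))) =
        fun s : ℝ => ∫ x, η (mul z (-x) + s • Dir z v w x) * u x := by
      funext s
      rw [mol_eq hTR hGRP]
      simp only [shift_eq, smul_eq_mul]
    rw [e1]
    exact key.2
  have h2 : HasDerivAt (fun s : ℝ => mol η u (mul z (s • v, s • w, 0)))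
      (fderiv ℝ (mol η u) z (v, w, 2 * (inner ℝ z.2.1 v - inner ℝ z.1 w))) 0 := by
    have h3 : HasDerivAt (fun s : ℝ => mul z (s • v, s • w, 0))
        ((v, w, 2 * (inner ℝ z.2.1 v - inner ℝ z.1 w)) : H n) 0 := by
      simp_rw [line_eq]
      have h4 := ((hasDerivAt_id (0 : ℝ)).smul_const
        ((v, w, 2 * (inner ℝ z.2.1 v - inner ℝ z.1 w)) : H n)).const_add z
      simpa using h4
    have h5 : HasFDerivAt (mol η u) (fderiv ℝ (mol η u) z)
        (mul z ((0 : ℝ) • v, (0 : ℝ) • w, 0)) := by
      rw [line_eq, zero_smul, add_zero]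
      exact (hm.differentiable (by norm_cast) z).hasFDerivAt
    exact h5.comp_hasDerivAt (0 : ℝ) h3
  rw [h2.unique h1]
  refine integral_congr_ae (ae_of_all _ fun x => ?_)
  simp only [G, zero_smul, add_zero]

/-- MODULE MO2: the gradient of mollifications -/
theorem pf_MO2 (hMO1 : T_MO1) (hTR : U_TR) (hGRP : T_GRP) : T_MO2 := by
  classical
  intro n η u g hn hη hu hgl hw z
  have hη1 : ContDiff ℝ 1 η := hη.1.of_le (by norm_cast)
  let ψz : H n → ℝ := fun x => η (mul z (-x))
  have hψ : Tst ψz := ⟨hη.1.comp (cd_mulneg z ∞), hη.2.comp_homeomorph (ez hGRP z)⟩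
  have hX0 : ∀ (j : Fin n) (p : H n), X (fun _ : H n => (0 : ℝ)) j p = 0 := by
    intro j p
    unfold X
    rw [(hasFDerivAt_const (0 : ℝ) p).fderiv]
    rfl
  have hY0 : ∀ (j : Fin n) (p : H n), Y (fun _ : H n => (0 : ℝ)) j p = 0 := by
    intro j p
    unfold Y
    rw [(hasFDerivAt_const (0 : ℝ) p).fderiv]
    rfl
  have ht0 : Tst (fun _ : H n => (0 : ℝ)) := ⟨contDiff_const, HasCompactSupport.zero⟩
  have hgi : Integrable (fun x => ψz x • g x) :=
    hgl.integrable_smul_left_of_hasCompactSupport hψ.1.continuous hψ.2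
  -- the weak gradient against `ψz` in one component
  have hcomp : ∀ i : Fin n ⊕ Fin n, ∫ x, u x * hg ψz x i = -mol η g z i := by
    intro i
    have h1 := hw (fun i' => if i' = i then ψz else fun _ => 0) (fun i' => by
      by_cases h : i' = i
      · simp only [if_pos h]
        exact hψ
      · simp only [if_neg h]
        exact ht0)
    have e1 : ∀ x, (∑ i', g x i' * (if i' = i then ψz else fun _ => 0) x) = ψz x * g x i := by
      intro x
      rw [Finset.sum_eq_single i]
      · rw [if_pos rfl, mul_comm]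
      · intro i' _ hi'
        rw [if_neg hi', mul_zero]
      · intro h
        exact absurd (Finset.mem_univ i) h
    have e2 : ∀ x, (∑ j, (X ((fun i' : Fin n ⊕ Fin n => if i' = i then ψz else fun _ => 0)
        (Sum.inl j)) j x + Y ((fun i' : Fin n ⊕ Fin n => if i' = i then ψz else fun _ => 0)
        (Sum.inr j)) j x)) = hg ψz x i := by
      intro x
      rcases i with i | i
      · rw [Finset.sum_eq_single i]
        · simp only [if_true, reduceCtorEq, if_false, hY0, add_zero]
          rfl
        · intro j _ hj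
          simp only [Sum.inl.injEq, hj, if_false, reduceCtorEq, hX0, hY0, add_zero]
        · intro h
          exact absurd (Finset.mem_univ i) h
      · rw [Finset.sum_eq_single i]
        · simp only [if_true, reduceCtorEq, if_false, hX0, zero_add]
          rfl
        · intro j _ hj
          simp only [Sum.inr.injEq, hj, if_false, reduceCtorEq, hX0, hY0, add_zero]
        · intro h
          exact absurd (Finset.mem_univ i) h
    have e3 : (∫ x, u x * ∑ j, (X ((fun i' : Fin n ⊕ Fin n => if i' = i then ψz else fun _ => 0)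
        (Sum.inl j)) j x + Y ((fun i' : Fin n ⊕ Fin n => if i' = i then ψz else fun _ => 0)
        (Sum.inr j)) j x)) = ∫ x, u x * hg ψz x i :=
      integral_congr_ae (ae_of_all _ fun x => congrArg (fun t => u x * t) (e2 x))
    have e4 : (∫ x, ∑ i', g x i' * (if i' = i then ψz else fun _ => 0) x) =
        ∫ x, ψz x * g x i := integral_congr_ae (ae_of_all _ fun x => e1 x)
    have h2 := e3.symm.trans (h1.trans (congrArg Neg.neg e4))
    have h3 : ∫ x, ψz x * g x i = mol η g z i := by
      rw [mol_eq hTR hGRP]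
      exact ((EuclideanSpace.proj i : G n →L[ℝ] ℝ).integral_comp_comm hgi)
    rw [h2, h3]
  have hA : ∀ v w : V n, fderiv ℝ (mol η u) z
      (v, w, 2 * (inner ℝ z.2.1 v - inner ℝ z.1 w)) =
      -∫ x, u x * fderiv ℝ ψz x (v, w, 2 * (inner ℝ x.2.1 v - inner ℝ x.1 w)) := by
    intro v w
    rw [deriv_mol hTR hGRP hMO1 hη hu, ← integral_neg]
    refine integral_congr_ae (ae_of_all _ fun x => ?_)
    simp only
    rw [deriv_psi hη1]
    ring
  ext i
  rcases i with j | j
  · have h1 := hcomp (Sum.inl j)
    have e1 : ∀ (f : H n → ℝ) (p : H n), hg f p (Sum.inl j) = fderiv ℝ f p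
        (EuclideanSpace.single j (1 : ℝ), 0, 2 * (inner ℝ p.2.1
          (EuclideanSpace.single j (1 : ℝ) : V n) - inner ℝ p.1 (0 : V n))) := by
      intro f p
      rw [inner_zero_right, sub_zero, EuclideanSpace.inner_single_right]
      simp only [one_mul, conj_trivial]
      rfl
    rw [e1, hA]
    simp_rw [e1] at h1
    rw [h1, neg_neg]
  · have h1 := hcomp (Sum.inr j)
    have e1 : ∀ (f : H n → ℝ) (p : H n), hg f p (Sum.inr j) = fderiv ℝ f p
        (0, EuclideanSpace.single j (1 : ℝ), 2 * (inner ℝ p.2.1 (0 : V n) -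
          inner ℝ p.1 (EuclideanSpace.single j (1 : ℝ) : V n))) := by
      intro f p
      rw [inner_zero_right, zero_sub, EuclideanSpace.inner_single_right]
      simp only [one_mul, conj_trivial, mul_neg]
      change fderiv ℝ f p (0, EuclideanSpace.single j (1 : ℝ), -2 * p.1 j) = _
      rw [neg_mul]
    rw [e1, hA]
    simp_rw [e1] at h1
    rw [h1, neg_neg]

end Pool.Agent.H40.HB.M2
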