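import Pool.Agent.H27.HB.TA
import Pool.Agent.H27.HB.TC
import Pool.Agent.H27.HB.TD

/-!
# Right translations (helper40, MP_8352e3_an): module TRE
-/

set_option autoImplicit false

namespace Pool.Agent.H40.HB
open MeasureTheory Set Filter Topology Pool.Agent.H80.HS Pool.Agent.H93.HQ Pool.Agent.H27.HB
open scoped ContDiff ENNReal

/-- right translations of integrals over balls -/
theorem tr_le (hTR : U_TR) (hGRP : T_GRP) {n : ℕ} (F : H n → ℝ≥0∞) (hF : Measurable F) (g : H n)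
    (ρ k : ℝ) (hg : N g ≤ k) :
    ∫⁻ z in {z | N z ≤ ρ}, F (mul z g) ≤ ∫⁻ z in {z | N z ≤ ρ + k}, F z := by
  have hm : ∀ r : ℝ, MeasurableSet {z : H n | N z ≤ r} := fun r =>
    (isClosed_le continuous_N continuous_const).measurableSet
  rw [← lintegral_indicator (hm ρ), ← lintegral_indicator (hm (ρ + k)),
    ← (hTR n _ g (hF.indicator (hm (ρ + k)))).2]
  refine lintegral_mono fun z => ?_
  by_cases hz : z ∈ {z : H n | N z ≤ ρ}
  · have h1 : mul z g ∈ {z : H n | N z ≤ ρ + k} :=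
      ((hGRP n z g 0 0 0).2.2.2.2.2.1).trans (add_le_add hz hg)
    rw [indicator_of_mem hz, indicator_of_mem h1]
  · rw [indicator_of_notMem hz]
    exact bot_le

/-- the estimate for the translation by `h` -/
def Pr {n : ℕ} (c : ℝ) (h : H n) : Prop := 0 ≤ c ∧ N h ≤ c ∧ ∀ φ : H n → ℝ, Tst φ → ∀ ρ : ℝ,
  ∫⁻ z in {z | N z ≤ ρ}, ‖φ (mul z h) - φ z‖ₑ ≤
    ENNReal.ofReal c * ∫⁻ z in {z | N z ≤ ρ + c}, ENNReal.ofReal (grad φ z)

theorem ball_mono {n : ℕ} (F : H n → ℝ≥0∞) {r r' : ℝ} (h : r ≤ r') :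
    ∫⁻ z in {z | N z ≤ r}, F z ≤ ∫⁻ z in {z | N z ≤ r'}, F z :=
  lintegral_mono_set fun _ hz => le_trans hz h

theorem Pr.comp (hTR : U_TR) (hGRP : T_GRP) {n : ℕ} {c c' : ℝ} {h h' : H n} (H1 : Pr c h)
    (H2 : Pr c' h') : Pr (c + c') (mul h h') := by
  obtain ⟨c0, hN, H1⟩ := H1
  obtain ⟨c0', hN', H2⟩ := H2
  refine ⟨add_nonneg c0 c0', ((hGRP n h h' 0 0 0).2.2.2.2.2.1).trans (add_le_add hN hN'),
    fun φ hφ ρ => ?_⟩
  have hφc : Continuous φ := hφ.1.continuous
  have hmul : Continuous fun z : H n => mul z h := by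
    unfold mul
    fun_prop
  have hmul' : Continuous fun z : H n => mul z h' := by
    unfold mul
    fun_prop
  have m1 : Measurable fun z : H n => ‖φ (mul z h') - φ z‖ₑ :=
    ((hφc.comp hmul').sub hφc).measurable.enorm
  have m2 : Measurable fun z : H n => ‖φ (mul z h) - φ z‖ₑ :=
    ((hφc.comp hmul).sub hφc).measurable.enorm
  have e1 : ∀ z : H n, ‖φ (mul z (mul h h')) - φ z‖ₑ ≤
      ‖φ (mul (mul z h) h') - φ (mul z h)‖ₑ + ‖φ (mul z h) - φ z‖ₑ := by
    intro z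
    rw [(hGRP n z h h' 0 0).1]
    have h1 : φ (mul z (mul h h')) - φ z =
        (φ (mul z (mul h h')) - φ (mul z h)) + (φ (mul z h) - φ z) := by ring
    rw [h1]
    exact enorm_add_le _ _
  calc ∫⁻ z in {z | N z ≤ ρ}, ‖φ (mul z (mul h h')) - φ z‖ₑ
      ≤ ∫⁻ z in {z | N z ≤ ρ}, (‖φ (mul (mul z h) h') - φ (mul z h)‖ₑ +
          ‖φ (mul z h) - φ z‖ₑ) := lintegral_mono fun z => e1 z
    _ = (∫⁻ z in {z | N z ≤ ρ}, ‖φ (mul (mul z h) h') - φ (mul z h)‖ₑ) +
          ∫⁻ z in {z | N z ≤ ρ}, ‖φ (mul z h) - φ z‖ₑ :=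
        lintegral_add_right _ m2
    _ ≤ (ENNReal.ofReal c' * ∫⁻ z in {z | N z ≤ ρ + (c + c')}, ENNReal.ofReal (grad φ z)) +
          ENNReal.ofReal c * ∫⁻ z in {z | N z ≤ ρ + (c + c')}, ENNReal.ofReal (grad φ z) := by
        refine add_le_add ?_ ?_
        · refine (tr_le hTR hGRP _ m1 h ρ c hN).trans ((H2 φ hφ (ρ + c)).trans ?_)
          rw [add_assoc]
        · refine (H1 φ hφ ρ).trans (mul_le_mul_right (ball_mono _ ?_) _)
          linarith
    _ = ENNReal.ofReal (c + c') *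
          ∫⁻ z in {z | N z ≤ ρ + (c + c')}, ENNReal.ofReal (grad φ z) := by
        rw [← add_mul, ← ENNReal.ofReal_add c0' c0, add_comm c' c]

theorem Pr.mono {n : ℕ} {c c' : ℝ} {h : H n} (H1 : Pr c h) (hc : c ≤ c') : Pr c' h := by
  obtain ⟨c0, hN, H1⟩ := H1
  refine ⟨c0.trans hc, hN.trans hc, fun φ hφ ρ => (H1 φ hφ ρ).trans ?_⟩
  exact mul_le_mul' (ENNReal.ofReal_le_ofReal hc) (ball_mono _ (by linarith))

/-- the direction of the line through `p` -/
theorem dir_eq {n : ℕ} (p : H n) (v w : V n) :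
    ((v, w, 2 * (inner ℝ p.2.1 v - inner ℝ p.1 w)) : H n) =
      (∑ j, v j • ((EuclideanSpace.single j (1 : ℝ), 0, 2 * p.2.1 j) : H n)) +
      ∑ j, w j • ((0, EuclideanSpace.single j (1 : ℝ), -2 * p.1 j) : H n) := by
  have hb : ∀ v : V n, ∑ j, v j • (EuclideanSpace.single j (1 : ℝ) : V n) = v := by
    intro v
    ext i
    simp [Finset.sum_apply, Pi.single_apply]
  refine Prod.ext ?_ (Prod.ext ?_ ?_)
  · simp only [Prod.fst_add, Prod.fst_sum, Prod.smul_mk, smul_zero, Finset.sum_const_zero,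
      add_zero]
    exact (hb v).symm
  · simp only [Prod.snd_add, Prod.fst_add, Prod.fst_sum, Prod.snd_sum, Prod.smul_mk, smul_zero,
      Finset.sum_const_zero, zero_add]
    exact (hb w).symm
  · simp only [Prod.snd_add, Prod.snd_sum, Prod.smul_mk, smul_eq_mul]
    rw [PiLp.inner_apply, PiLp.inner_apply, mul_sub, Finset.mul_sum, Finset.mul_sum,
      sub_eq_add_neg, ← Finset.sum_neg_distrib]
    refine congrArg₂ (· + ·) (Finset.sum_congr rfl fun j _ => ?_)
      (Finset.sum_congr rfl fun j _ => ?_)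
    · simp
      ring
    · simp
      ring

/-- derivatives in horizontal directions -/
theorem dir_le {n : ℕ} (φ : H n → ℝ) (p : H n) (v w : V n) :
    |fderiv ℝ φ p (v, w, 2 * (inner ℝ p.2.1 v - inner ℝ p.1 w))| ≤
      (‖v‖ + ‖w‖) * grad φ p := by
  have cs : ∀ (v : V n) (f : Fin n → ℝ), |∑ j, v j * f j| ≤ ‖v‖ * Real.sqrt (∑ j, ‖f j‖ ^ 2) := by
    intro v f
    rw [EuclideanSpace.norm_eq, ← Real.sqrt_mul (Finset.sum_nonneg fun _ _ => sq_nonneg _)]
    apply Real.abs_le_sqrt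
    simp only [Real.norm_eq_abs, sq_abs]
    exact Finset.sum_mul_sq_le_sq_mul_sq _ _ _
  rw [dir_eq, map_add, map_sum, map_sum]
  simp only [map_smul, smul_eq_mul]
  have h1 := cs v fun j => X φ j p
  have h2 := cs w fun j => Y φ j p
  have h3 := gX_le_grad φ p
  have h4 := gY_le_grad φ p
  have h5 : ‖v‖ * gX φ p ≤ ‖v‖ * grad φ p := mul_le_mul_of_nonneg_left h3 (norm_nonneg _)
  have h6 : ‖w‖ * gY φ p ≤ ‖w‖ * grad φ p := mul_le_mul_of_nonneg_left h4 (norm_nonneg _)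
  refine (abs_add_le _ _).trans ?_
  calc _ ≤ ‖v‖ * gX φ p + ‖w‖ * gY φ p := add_le_add h1 h2
    _ ≤ (‖v‖ + ‖w‖) * grad φ p := by linarith

/-- the gauge of horizontal elements -/
theorem N_hor {n : ℕ} (v w : V n) : N ((v, w, 0) : H n) ≤ ‖v‖ + ‖w‖ := by
  have h0 : 0 ≤ ‖v‖ + ‖w‖ := by positivity
  have h1 := N_pow_four' ((v, w, 0) : H n)
  have h2 : N ((v, w, 0) : H n) ^ 4 ≤ (‖v‖ + ‖w‖) ^ 4 := by
    rw [h1]
    simp only [Pool.Agent.H93.HQ.sq]
    have h3 : ‖v‖ ^ 2 + ‖w‖ ^ 2 ≤ (‖v‖ + ‖w‖) ^ 2 := by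
      nlinarith [norm_nonneg v, norm_nonneg w, mul_nonneg (norm_nonneg v) (norm_nonneg w)]
    calc (‖v‖ ^ 2 + ‖w‖ ^ 2) ^ 2 + 0 ^ 2 = (‖v‖ ^ 2 + ‖w‖ ^ 2) ^ 2 := by ring
      _ ≤ ((‖v‖ + ‖w‖) ^ 2) ^ 2 := pow_le_pow_left₀ (by positivity) h3 2
      _ = (‖v‖ + ‖w‖) ^ 4 := by ring
  exact (pow_le_pow_iff_left₀ (N_nonneg _) h0 (by norm_num)).1 h2

/-- the line through `z` -/
theorem line_eq {n : ℕ} (z : H n) (v w : V n) (s : ℝ) :
    mul z (s • v, s • w, 0) = z + s • ((v, w, 2 * (inner ℝ z.2.1 v - inner ℝ z.1 w)) : H n) := by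
  unfold mul
  refine Prod.ext rfl (Prod.ext rfl ?_)
  simp only [Prod.snd_add, Prod.smul_mk, inner_smul_right, smul_eq_mul]
  ring

theorem line_deriv {n : ℕ} {φ : H n → ℝ} (hφ : ContDiff ℝ 1 φ) (z : H n) (v w : V n) (s : ℝ) :
    HasDerivAt (fun s : ℝ => φ (mul z (s • v, s • w, 0)))
      (fderiv ℝ φ (mul z (s • v, s • w, 0)) (v, w, 2 * (inner ℝ (mul z (s • v, s • w, 0)).2.1 v -
        inner ℝ (mul z (s • v, s • w, 0)).1 w))) s := by
  have h1 : HasDerivAt (fun s : ℝ => mul z (s • v, s • w, 0))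
      ((v, w, 2 * (inner ℝ z.2.1 v - inner ℝ z.1 w)) : H n) s := by
    simp_rw [line_eq]
    have h2 := ((hasDerivAt_id s).smul_const
      ((v, w, 2 * (inner ℝ z.2.1 v - inner ℝ z.1 w)) : H n)).const_add z
    simpa using h2
  have h3 : inner ℝ (mul z (s • v, s • w, 0)).2.1 v - inner ℝ (mul z (s • v, s • w, 0)).1 w =
      inner ℝ z.2.1 v - inner ℝ z.1 w := by
    simp only [mul, inner_add_left, real_inner_smul_left]
    rw [real_inner_comm v w]
    ring
  rw [h3]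
  exact ((hφ.differentiable one_ne_zero _).hasFDerivAt).comp_hasDerivAt s h1

/-- the difference along a horizontal line -/
theorem line_le {n : ℕ} {φ : H n → ℝ} (hφ : ContDiff ℝ 1 φ) (z : H n) (v w : V n) :
    ‖φ (mul z (v, w, 0)) - φ z‖ₑ ≤ ∫⁻ s in Ioc (0 : ℝ) 1,
      ENNReal.ofReal (‖v‖ + ‖w‖) * ENNReal.ofReal (grad φ (mul z (s • v, s • w, 0))) := by
  let D : ℝ → ℝ := fun s => fderiv ℝ φ (mul z (s • v, s • w, 0))
    (v, w, 2 * (inner ℝ (mul z (s • v, s • w, 0)).2.1 v -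
        inner ℝ (mul z (s • v, s • w, 0)).1 w))
  have hml : Continuous fun s : ℝ => mul z (s • v, s • w, 0) := by
    simp_rw [line_eq]
    fun_prop
  have hDc : Continuous D := by
    refine ((hφ.continuous_fderiv one_ne_zero).comp hml).clm_apply ?_
    have h1 : Continuous fun s : ℝ => (mul z (s • v, s • w, 0)).1 := continuous_fst.comp hml
    have h2 : Continuous fun s : ℝ => (mul z (s • v, s • w, 0)).2.1 :=
      (continuous_fst.comp continuous_snd).comp hml
    exact continuous_const.prodMk (continuous_const.prodMk (continuous_const.mul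
      ((h2.inner continuous_const).sub (h1.inner continuous_const))))
  have hint : ∫ s in (0 : ℝ)..1, D s = φ (mul z (v, w, 0)) - φ z := by
    rw [intervalIntegral.integral_eq_sub_of_hasDerivAt (fun s _ => line_deriv hφ z v w s)
      (hDc.intervalIntegrable _ _)]
    simp only [one_smul, zero_smul]
    have h0 : mul z ((0, 0, 0) : H n) = z := mul_zero' z
    rw [h0]
  rw [← hint, intervalIntegral.integral_of_le zero_le_one]
  refine (enorm_integral_le_lintegral_enorm _).trans (lintegral_mono fun s => ?_)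
  rw [← ENNReal.ofReal_mul (by positivity), Real.enorm_eq_ofReal_abs]
  exact ENNReal.ofReal_le_ofReal (dir_le φ _ v w)

/-- horizontal translations -/
theorem Pr.hor (hTR : U_TR) (hGRP : T_GRP) {n : ℕ} (v w : V n) :
    Pr (‖v‖ + ‖w‖) ((v, w, 0) : H n) := by
  refine ⟨by positivity, N_hor v w, fun φ hφ ρ => ?_⟩
  have hφ1 : ContDiff ℝ 1 φ := hφ.1.of_le (by norm_cast)
  have hg : Continuous (grad φ) := continuous_grad hφ1
  set c : ℝ := ‖v‖ + ‖w‖ with hc
  have hml : Continuous fun q : H n × ℝ => mul q.1 (q.2 • v, q.2 • w, 0) := by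
    simp_rw [line_eq]
    fun_prop
  have hmeas : Measurable fun q : H n × ℝ =>
      ENNReal.ofReal c * ENNReal.ofReal (grad φ (mul q.1 (q.2 • v, q.2 • w, 0))) :=
    (hg.comp hml).measurable.ennreal_ofReal.const_mul _
  calc ∫⁻ z in {z | N z ≤ ρ}, ‖φ (mul z (v, w, 0)) - φ z‖ₑ
      ≤ ∫⁻ z in {z | N z ≤ ρ}, ∫⁻ s in Ioc (0 : ℝ) 1,
          ENNReal.ofReal c * ENNReal.ofReal (grad φ (mul z (s • v, s • w, 0))) :=
        lintegral_mono fun z => line_le hφ1 z v w
    _ = ∫⁻ s in Ioc (0 : ℝ) 1, ∫⁻ z in {z | N z ≤ ρ},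
          ENNReal.ofReal c * ENNReal.ofReal (grad φ (mul z (s • v, s • w, 0))) :=
        lintegral_lintegral_swap hmeas.aemeasurable
    _ ≤ ∫⁻ s in Ioc (0 : ℝ) 1,
          ENNReal.ofReal c * ∫⁻ z in {z | N z ≤ ρ + c}, ENNReal.ofReal (grad φ z) := by
        refine setLIntegral_mono measurable_const fun s hs => ?_
        rw [lintegral_const_mul' _ _ ENNReal.ofReal_ne_top]
        refine mul_le_mul_right (tr_le hTR hGRP (fun z => ENNReal.ofReal (grad φ z))
          hg.measurable.ennreal_ofReal _ ρ c ((N_hor _ _).trans ?_)) _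
        rw [norm_smul, norm_smul, ← mul_add, Real.norm_eq_abs, abs_of_pos hs.1]
        exact mul_le_of_le_one_left (by positivity) hs.2
    _ = ENNReal.ofReal c * ∫⁻ z in {z | N z ≤ ρ + c}, ENNReal.ofReal (grad φ z) := by
        rw [lintegral_const, Measure.restrict_apply_univ, Real.volume_Ioc, sub_zero,
          ENNReal.ofReal_one, mul_one]

/-- translations in the centre -/
theorem Pr.ver (hTR : U_TR) (hGRP : T_GRP) {n : ℕ} (hn : 1 ≤ n) (t : ℝ) :
    Pr (2 * Real.sqrt |t|) ((0, 0, t) : H n) := by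
  let e : V n := EuclideanSpace.single ⟨0, hn⟩ (1 : ℝ)
  have he : ‖e‖ = 1 := by simp [e]
  have hee : inner ℝ e e = (1 : ℝ) := by
    rw [real_inner_self_eq_norm_sq, he, one_pow]
  set s : ℝ := Real.sqrt |t| / 2 with hs
  have hs0 : 0 ≤ s := by positivity
  have hs4 : 4 * s ^ 2 = |t| := by
    rw [hs, div_pow, Real.sq_sqrt (abs_nonneg t)]
    ring
  have a1 : Pr s ((s • e, 0, 0) : H n) := by
    have h1 := Pr.hor hTR hGRP (s • e) 0
    rwa [norm_smul, he, Real.norm_eq_abs, abs_of_nonneg hs0, norm_zero, mul_one, add_zero] at h1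
  have a2 : Pr s ((0, s • e, 0) : H n) := by
    have h1 := Pr.hor hTR hGRP 0 (s • e)
    rwa [norm_smul, he, Real.norm_eq_abs, abs_of_nonneg hs0, norm_zero, mul_one, zero_add] at h1
  have a3 : Pr s ((-(s • e), 0, 0) : H n) := by
    have h1 := Pr.hor hTR hGRP (-(s • e)) 0
    rwa [norm_neg, norm_smul, he, Real.norm_eq_abs, abs_of_nonneg hs0, norm_zero, mul_one,
      add_zero] at h1
  have a4 : Pr s ((0, -(s • e), 0) : H n) := by
    have h1 := Pr.hor hTR hGRP 0 (-(s • e))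
    rwa [norm_neg, norm_smul, he, Real.norm_eq_abs, abs_of_nonneg hs0, norm_zero, mul_one,
      zero_add] at h1
  have hfin : s + s + s + s = 2 * Real.sqrt |t| := by
    rw [hs]
    ring
  rcases le_total t 0 with ht | ht
  · have h1 := ((a1.comp hTR hGRP a2).comp hTR hGRP a3).comp hTR hGRP a4
    rw [hfin] at h1
    have h2 : mul (mul (mul ((s • e, 0, 0) : H n) (0, s • e, 0)) (-(s • e), 0, 0))
        (0, -(s • e), 0) = (0, 0, t) := by
      rw [abs_of_nonpos ht] at hs4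
      unfold mul
      refine Prod.ext ?_ (Prod.ext ?_ ?_)
      · simp
      · simp
      · simp only [inner_add_left, inner_neg_right, inner_neg_left,
          real_inner_smul_left, real_inner_smul_right, inner_zero_left, inner_zero_right, hee]
        linarith
    rwa [h2] at h1
  · have h1 := ((a2.comp hTR hGRP a1).comp hTR hGRP a4).comp hTR hGRP a3
    rw [hfin] at h1
    have h2 : mul (mul (mul ((0, s • e, 0) : H n) (s • e, 0, 0)) (0, -(s • e), 0))
        (-(s • e), 0, 0) = (0, 0, t) := by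
      rw [abs_of_nonneg ht] at hs4
      unfold mul
      refine Prod.ext ?_ (Prod.ext ?_ ?_)
      · simp
      · simp
      · simp only [inner_add_left, inner_neg_right, inner_neg_left,
          real_inner_smul_left, real_inner_smul_right, inner_zero_left, inner_zero_right, hee]
        linarith
    rwa [h2] at h1

/-- all translations -/
theorem Pr.all (hTR : U_TR) (hGRP : T_GRP) {n : ℕ} (hn : 1 ≤ n) (h : H n) : Pr (4 * N h) h := by
  have h1 := (Pr.hor hTR hGRP h.1 h.2.1).comp hTR hGRP (Pr.ver hTR hGRP hn h.2.2)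
  have h2 : mul ((h.1, h.2.1, 0) : H n) (0, 0, h.2.2) = h := by
    unfold mul
    refine Prod.ext ?_ (Prod.ext ?_ ?_) <;> simp
  rw [h2] at h1
  refine h1.mono ?_
  have hN := N_nonneg h
  have h4 := N_pow_four' h
  have hs : 0 ≤ sq h := sq_nonneg' h
  have h5 : sq h ≤ N h ^ 2 := by
    have h6 : sq h ^ 2 ≤ (N h ^ 2) ^ 2 := by nlinarith [sq_nonneg h.2.2]
    exact (pow_le_pow_iff_left₀ hs (by positivity) (by norm_num)).1 h6
  have h7 : |h.2.2| ≤ N h ^ 2 := by
    have h6 : |h.2.2| ^ 2 ≤ (N h ^ 2) ^ 2 := by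
      rw [sq_abs]
      nlinarith [sq_nonneg (sq h)]
    exact (pow_le_pow_iff_left₀ (abs_nonneg _) (by positivity) (by norm_num)).1 h6
  have h8 : Real.sqrt |h.2.2| ≤ N h := by
    rw [← Real.sqrt_sq hN]
    exact Real.sqrt_le_sqrt h7
  have h9 : sq h = ‖h.1‖ ^ 2 + ‖h.2.1‖ ^ 2 := rfl
  have h10 : ‖h.1‖ + ‖h.2.1‖ ≤ 2 * N h := by
    have h11 : (‖h.1‖ + ‖h.2.1‖) ^ 2 ≤ (2 * N h) ^ 2 := by
      nlinarith [sq_nonneg (‖h.1‖ - ‖h.2.1‖)]
    exact (pow_le_pow_iff_left₀ (by positivity) (by positivity) (by norm_num)).1 h11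
  linarith

/-- MODULE TRE: estimate for right translations -/
theorem pf_TRE (hTR : U_TR) (hGRP : T_GRP) : T_TRE := by
  intro n hn R hR
  refine ⟨4, R + 4, by norm_num, by linarith, fun φ hφ h hh => ?_⟩
  have hφ1 : ContDiff ℝ 1 φ := hφ.1.of_le (by norm_cast)
  have hg : Continuous (grad φ) := continuous_grad hφ1
  have hmul : Continuous fun z : H n => mul z h := by
    unfold mul
    fun_prop
  obtain ⟨c0, -, hP⟩ := Pr.all hTR hGRP hn h
  have h1 := (hP φ hφ R).trans (mul_le_mul_right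
    (ball_mono (fun z => ENNReal.ofReal (grad φ z)) (show R + 4 * N h ≤ R + 4 by linarith)) _)
  have e1 : ∫ z in {z | N z ≤ R}, |φ (mul z h) - φ z| =
      (∫⁻ z in {z | N z ≤ R}, ‖φ (mul z h) - φ z‖ₑ).toReal :=
    integral_norm_eq_lintegral_enorm
      ((hφ.1.continuous.comp hmul).sub hφ.1.continuous).aestronglyMeasurable
  have e2 : ∫ z in {z | N z ≤ R + 4}, grad φ z =
      (∫⁻ z in {z | N z ≤ R + 4}, ENNReal.ofReal (grad φ z)).toReal :=
    integral_eq_lintegral_of_nonneg_ae (ae_of_all _ fun z => grad_nonneg φ z)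
      hg.aestronglyMeasurable
  have hfin : ∫⁻ z in {z | N z ≤ R + 4}, ENNReal.ofReal (grad φ z) ≠ ⊤ := by
    refine ne_of_lt (lt_of_le_of_lt ?_ (integrable_grad hφ1 hφ.2).hasFiniteIntegral)
    refine (setLIntegral_le_lintegral _ _).trans (lintegral_mono fun z => ?_)
    rw [Real.enorm_eq_ofReal (grad_nonneg φ z)]
  rw [e1, e2]
  have h2 := ENNReal.toReal_mono (ENNReal.mul_ne_top ENNReal.ofReal_ne_top hfin) h1
  rwa [ENNReal.toReal_mul, ENNReal.toReal_ofReal c0] at h2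

end Pool.Agent.H40.HB
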