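import Pool.Agent.H27.HB.TF

/-!
# Integrability of powers of `w` (helper40, MP_8352e3_an): module WIN
-/

set_option autoImplicit false

namespace Pool.Agent.H40.HB
open MeasureTheory Set Filter Topology Pool.Agent.H80.HS Pool.Agent.H93.HQ Pool.Agent.H27.HB
open scoped ContDiff ENNReal

/-- MODULE WIN: integrability of powers of `w` -/
theorem pf_WIN : T_WIN := by
  intro n s hs
  obtain ⟨a, b, ha, hb, hab⟩ : ∃ a b : ℝ, (n : ℝ) < 2 * a ∧ 1 < 2 * b ∧ s = a + b :=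
    ⟨(n + (2 * s - n - 1) / 2) / 2, s - (n + (2 * s - n - 1) / 2) / 2, by linarith, by linarith,
      by ring⟩
  have hn : (0 : ℝ) ≤ n := Nat.cast_nonneg n
  have ha0 : 0 < a := by linarith
  have hb0 : 0 < b := by linarith
  have i1 : Integrable (fun x : V n => (1 + ‖x‖ ^ 2) ^ (-a)) := by
    have h := integrable_rpow_neg_one_add_norm_sq (E := V n) (μ := volume) (r := 2 * a)
      (by rw [finrank_euclideanSpace_fin]; exact ha)
    have e : -(2 * a) / 2 = -a := by ring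
    rwa [e] at h
  have i2 : Integrable (fun t : ℝ => (1 + ‖t‖ ^ 2) ^ (-b)) := by
    have h := integrable_rpow_neg_one_add_norm_sq (E := ℝ) (μ := volume) (r := 2 * b)
      (by rw [Module.finrank_self, Nat.cast_one]; exact hb)
    have e : -(2 * b) / 2 = -b := by ring
    rwa [e] at h
  have i3 : Integrable (fun z : H n =>
      (1 + ‖z.1‖ ^ 2) ^ (-a) * ((1 + ‖z.2.1‖ ^ 2) ^ (-a) * (1 + ‖z.2.2‖ ^ 2) ^ (-b))) :=
    i1.mul_prod (i1.mul_prod i2)
  have hpos : ∀ z : H n, 0 < ww z := by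
    intro z
    have h1 := sq_nonneg' z
    unfold ww
    positivity
  have hc : Continuous (ww : H n → ℝ) := by
    have := continuous_sq (n := n)
    unfold ww
    fun_prop
  refine i3.mono' ((hc.rpow_const fun z => Or.inl (hpos z).ne').aestronglyMeasurable)
    (ae_of_all _ fun z => ?_)
  have hw := hpos z
  rw [Real.norm_of_nonneg (Real.rpow_nonneg hw.le _), hab, neg_add, Real.rpow_add hw,
    ← mul_assoc]
  have hsq : Pool.Agent.H93.HQ.sq z = ‖z.1‖ ^ 2 + ‖z.2.1‖ ^ 2 := rfl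
  have b1 : (1 + ‖z.1‖ ^ 2) * (1 + ‖z.2.1‖ ^ 2) ≤ ww z := by
    unfold ww
    rw [hsq]
    nlinarith [sq_nonneg z.2.2, sq_nonneg ‖z.1‖, sq_nonneg ‖z.2.1‖,
      mul_nonneg (sq_nonneg ‖z.1‖) (sq_nonneg ‖z.2.1‖), sq_nonneg (‖z.1‖ ^ 2),
      sq_nonneg (‖z.2.1‖ ^ 2)]
  have b2 : 1 + ‖z.2.2‖ ^ 2 ≤ ww z := by
    unfold ww
    rw [hsq, Real.norm_eq_abs, sq_abs]
    nlinarith [sq_nonneg ‖z.1‖, sq_nonneg ‖z.2.1‖, sq_nonneg (‖z.1‖ ^ 2 + ‖z.2.1‖ ^ 2)]
  refine mul_le_mul ?_ ?_ (Real.rpow_nonneg hw.le _) (by positivity)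
  · rw [← Real.mul_rpow (by positivity) (by positivity)]
    exact Real.rpow_le_rpow_of_nonpos (by positivity) b1 (by linarith)
  · exact Real.rpow_le_rpow_of_nonpos (by positivity) b2 (by linarith)

end Pool.Agent.H40.HB
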